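import Mathlib

/-!
# Osgood: a complex differentiable function of finitely many variables is smooth
-/

set_option autoImplicit false

open scoped ContDiff Topology
open MeasureTheory Filter Set Metric

namespace Pool.Agent.P2

section

variable {E : Type*} [NormedAddCommGroup E] [NormedSpace ℂ E]
  {F : Type*} [NormedAddCommGroup F] [NormedSpace ℂ F]

/-- differentiability on a line -/
theorem OSG_line {f : E → F} {U : Set E} (hU : IsOpen U) (hf : DifferentiableOn ℂ f U) {y v : E}
    {ζ : ℂ} (h : y + ζ • v ∈ U) :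
    HasDerivAt (fun z : ℂ => f (y + z • v)) (fderiv ℂ f (y + ζ • v) v) ζ := by
  have h1 : HasFDerivAt f (fderiv ℂ f (y + ζ • v)) (y + ζ • v) :=
    (hf.differentiableAt (hU.mem_nhds h)).hasFDerivAt
  have h2 : HasDerivAt (fun z : ℂ => y + z • v) v ζ := by
    have := ((hasDerivAt_id ζ).smul_const v).const_add y
    simpa using this
  exact h1.comp_hasDerivAt ζ h2

/-- Cauchy estimate -/
theorem OSG_bound {f : E → F} {x : E} {R M : ℝ} (hR : 0 < R) (hf : DifferentiableOn ℂ f (ball x R))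
    (hM : ∀ y ∈ ball x R, ‖f y‖ ≤ M) : ‖fderiv ℂ f x‖ ≤ 2 * M / R := by
  have hM0 : 0 ≤ M := le_trans (norm_nonneg _) (hM x (mem_ball_self hR))
  refine ContinuousLinearMap.opNorm_le_bound _ (by positivity) fun w => ?_
  rcases eq_or_ne w 0 with rfl | hw
  · simp
  have hw' : 0 < ‖w‖ := norm_pos_iff.2 hw
  set ρ : ℝ := R / (2 * ‖w‖) with hρ
  have hρ0 : 0 < ρ := by positivity
  have hmem : ∀ z : ℂ, z ∈ closedBall (0 : ℂ) ρ → x + z • w ∈ ball x R := by
    intro z hz
    rw [mem_closedBall_zero_iff] at hz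
    rw [mem_ball, dist_eq_norm, add_sub_cancel_left, norm_smul]
    calc ‖z‖ * ‖w‖ ≤ ρ * ‖w‖ := mul_le_mul_of_nonneg_right hz hw'.le
      _ = R / 2 := by rw [hρ]; field_simp
      _ < R := by linarith
  have h1 : ∀ z ∈ closedBall (0 : ℂ) ρ,
      HasDerivAt (fun z : ℂ => f (x + z • w)) (fderiv ℂ f (x + z • w) w) z := fun z hz =>
    OSG_line isOpen_ball hf (hmem z hz)
  have h2 : DiffContOnCl ℂ (fun z : ℂ => f (x + z • w)) (ball (0 : ℂ) ρ) := by
    refine DifferentiableOn.diffContOnCl ?_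
    intro z hz
    rw [closure_ball (0 : ℂ) hρ0.ne'] at hz
    exact (h1 z hz).differentiableAt.differentiableWithinAt
  have h3 := Complex.norm_deriv_le_of_forall_mem_sphere_norm_le (c := (0 : ℂ)) hρ0 h2
    (C := M) (fun z hz => hM _ (hmem z (sphere_subset_closedBall hz)))
  rw [(h1 0 (mem_closedBall_self hρ0.le)).deriv, zero_smul, add_zero] at h3
  refine h3.trans (le_of_eq ?_)
  rw [hρ]
  field_simp

/-- the derivative is locally Lipschitz, so continuous -/
theorem OSG_cont {f : E → F} {U : Set E} (hU : IsOpen U) (hf : DifferentiableOn ℂ f U) :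
    ContinuousOn (fderiv ℂ f) U := by
  intro x hx
  apply ContinuousAt.continuousWithinAt
  obtain ⟨R, hR, hRU, hRM⟩ : ∃ R > 0, ball x (4 * R) ⊆ U ∧ ∀ y ∈ ball x (4 * R), ‖f y‖ ≤ ‖f x‖ + 1 := by
    have h1 : ContinuousAt f x := (hf.differentiableAt (hU.mem_nhds hx)).continuousAt
    have h2 : ∀ᶠ y in 𝓝 x, ‖f y‖ ≤ ‖f x‖ + 1 := by
      have h3 : ∀ᶠ y in 𝓝 x, ‖f y‖ < ‖f x‖ + 1 :=
        h1.norm.eventually_lt_const (by linarith : ‖f x‖ < ‖f x‖ + 1)
      exact h3.mono fun y hy => hy.le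
    obtain ⟨R, hR, h4⟩ := Metric.eventually_nhds_iff_ball.1 (h2.and (hU.eventually_mem hx))
    refine ⟨R / 4, by linarith, ?_, ?_⟩
    · intro y hy
      rw [mul_div_cancel₀ _ (by norm_num : (4 : ℝ) ≠ 0)] at hy
      exact (h4 y hy).2
    · intro y hy
      rw [mul_div_cancel₀ _ (by norm_num : (4 : ℝ) ≠ 0)] at hy
      exact (h4 y hy).1
  set M : ℝ := ‖f x‖ + 1 with hM
  have hM0 : 0 < M := by positivity
  have hb : ∀ y ∈ ball x (3 * R), ‖fderiv ℂ f y‖ ≤ 2 * M / R := by
    intro y hy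
    have hsub : ball y R ⊆ ball x (4 * R) := by
      intro z hz
      rw [mem_ball] at hy hz ⊢
      linarith [dist_triangle z y x]
    exact OSG_bound hR (hf.mono (hsub.trans hRU)) fun z hz => hRM z (hsub hz)
  have hlip : ∀ y ∈ ball x (3 * R), ∀ z ∈ ball x (3 * R), ‖f z - f y‖ ≤ 2 * M / R * ‖z - y‖ := by
    intro y hy z hz
    refine Convex.norm_image_sub_le_of_norm_fderiv_le (𝕜 := ℂ) (s := ball x (3 * R)) ?_ hb
      (convex_ball x (3 * R)) hy hz
    intro w hw
    have hw' : w ∈ ball x (4 * R) := ball_subset_ball (by linarith) hw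
    exact hf.differentiableAt (hU.mem_nhds (hRU hw'))
  have hlip2 : ∀ y ∈ ball x R, ‖fderiv ℂ f y - fderiv ℂ f x‖ ≤ 2 * (2 * M / R) / R * ‖y - x‖ := by
    intro y hy
    have hg : DifferentiableOn ℂ (fun z => f (z + (y - x)) - f z) (ball x R) := by
      intro z hz
      have hz1 : z + (y - x) ∈ U := by
        apply hRU
        rw [mem_ball, dist_eq_norm] at hy hz ⊢
        calc ‖z + (y - x) - x‖ = ‖(z - x) + (y - x)‖ := by congr 1; abel
          _ ≤ ‖z - x‖ + ‖y - x‖ := norm_add_le _ _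
          _ < 4 * R := by linarith
      have hz2 : z ∈ U := hRU (ball_subset_ball (by linarith) hz)
      refine DifferentiableAt.differentiableWithinAt ?_
      refine DifferentiableAt.sub ?_ (hf.differentiableAt (hU.mem_nhds hz2))
      exact (hf.differentiableAt (hU.mem_nhds hz1)).comp z (differentiableAt_id.add_const _)
    have hgb : ∀ z ∈ ball x R, ‖f (z + (y - x)) - f z‖ ≤ 2 * M / R * ‖y - x‖ := by
      intro z hz
      rw [mem_ball, dist_eq_norm] at hy hz
      have h1 := hlip z (by rw [mem_ball, dist_eq_norm]; linarith) (z + (y - x)) (by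
        rw [mem_ball, dist_eq_norm]
        calc ‖z + (y - x) - x‖ = ‖(z - x) + (y - x)‖ := by congr 1; abel
          _ ≤ ‖z - x‖ + ‖y - x‖ := norm_add_le _ _
          _ < 3 * R := by linarith)
      rwa [add_sub_cancel_left] at h1
    have h2 := OSG_bound hR hg hgb
    have h3 : fderiv ℂ (fun z => f (z + (y - x)) - f z) x = fderiv ℂ f y - fderiv ℂ f x := by
      have hx1 : HasFDerivAt f (fderiv ℂ f x) x :=
        (hf.differentiableAt (hU.mem_nhds hx)).hasFDerivAt
      have hyU : y ∈ U := hRU (ball_subset_ball (by linarith) hy)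
      have hy1 : HasFDerivAt f (fderiv ℂ f y) (x + (y - x)) := by
        rw [add_sub_cancel]
        exact (hf.differentiableAt (hU.mem_nhds hyU)).hasFDerivAt
      have hy2 : HasFDerivAt (fun z => f (z + (y - x))) (fderiv ℂ f y) x := by
        have := hy1.comp x ((hasFDerivAt_id x).add_const (y - x))
        rw [ContinuousLinearMap.comp_id] at this
        exact this
      exact (hy2.sub hx1).fderiv
    rw [h3] at h2
    calc ‖fderiv ℂ f y - fderiv ℂ f x‖ ≤ 2 * (2 * M / R * ‖y - x‖) / R := h2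
      _ = 2 * (2 * M / R) / R * ‖y - x‖ := by ring
  rw [Metric.continuousAt_iff']
  intro ε hε
  set C : ℝ := 2 * (2 * M / R) / R with hC
  have hC0 : 0 < C := by positivity
  filter_upwards [ball_mem_nhds x hR, ball_mem_nhds x (div_pos hε hC0)] with y hy1 hy2
  rw [dist_eq_norm]
  refine lt_of_le_of_lt (hlip2 y hy1) ?_
  rw [mem_ball, dist_eq_norm, lt_div_iff₀ hC0] at hy2
  linarith

/-- directional derivatives of holomorphic functions are holomorphic -/
theorem OSG_dir [CompleteSpace F] {f : E → F} {U : Set E} (hU : IsOpen U)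
    (hf : DifferentiableOn ℂ f U) (v : E) : DifferentiableOn ℂ (fun x => fderiv ℂ f x v) U := by
  intro x hx
  apply DifferentiableAt.differentiableWithinAt
  obtain ⟨R, hR, hRU, hRM⟩ : ∃ R > 0, ball x (4 * R) ⊆ U ∧ ∀ y ∈ ball x (4 * R), ‖f y‖ ≤ ‖f x‖ + 1 := by
    have h1 : ContinuousAt f x := (hf.differentiableAt (hU.mem_nhds hx)).continuousAt
    have h2 : ∀ᶠ y in 𝓝 x, ‖f y‖ ≤ ‖f x‖ + 1 := by
      have h3 : ∀ᶠ y in 𝓝 x, ‖f y‖ < ‖f x‖ + 1 :=
        h1.norm.eventually_lt_const (by linarith : ‖f x‖ < ‖f x‖ + 1)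
      exact h3.mono fun y hy => hy.le
    obtain ⟨R, hR, h4⟩ := Metric.eventually_nhds_iff_ball.1 (h2.and (hU.eventually_mem hx))
    refine ⟨R / 4, by linarith, ?_, ?_⟩
    · intro y hy
      rw [mul_div_cancel₀ _ (by norm_num : (4 : ℝ) ≠ 0)] at hy
      exact (h4 y hy).2
    · intro y hy
      rw [mul_div_cancel₀ _ (by norm_num : (4 : ℝ) ≠ 0)] at hy
      exact (h4 y hy).1
  set M : ℝ := ‖f x‖ + 1 with hM
  have hM0 : 0 < M := by positivity
  set ρ : ℝ := R / (‖v‖ + 1) with hρ
  have hv1 : 0 < ‖v‖ + 1 := by positivity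
  have hρ0 : 0 < ρ := by positivity
  have hρv : ∀ z : ℂ, ‖z‖ ≤ ρ → ‖z • v‖ < R := by
    intro z hz
    rw [norm_smul]
    calc ‖z‖ * ‖v‖ ≤ ρ * ‖v‖ := mul_le_mul_of_nonneg_right hz (norm_nonneg _)
      _ < ρ * (‖v‖ + 1) := by nlinarith
      _ = R := by rw [hρ]; field_simp
  have hmem : ∀ y ∈ ball x R, ∀ z : ℂ, ‖z‖ ≤ ρ → y + z • v ∈ ball x (2 * R) := by
    intro y hy z hz
    rw [mem_ball, dist_eq_norm] at hy ⊢
    calc ‖y + z • v - x‖ = ‖(y - x) + z • v‖ := by congr 1; abel
      _ ≤ ‖y - x‖ + ‖z • v‖ := norm_add_le _ _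
      _ < 2 * R := by linarith [hρv z hz]
  have h24 : ball x (2 * R) ⊆ ball x (4 * R) := ball_subset_ball (by linarith)
  -- Cauchy formula
  have hcau : ∀ y ∈ ball x R, fderiv ℂ f y v =
      (2 * Real.pi * Complex.I : ℂ)⁻¹ • ∮ z in C(0, ρ), ((z - 0) ^ 2)⁻¹ • f (y + z • v) := by
    intro y hy
    have h1 : DifferentiableOn ℂ (fun z : ℂ => f (y + z • v)) (closedBall 0 ρ) := by
      intro z hz
      rw [mem_closedBall_zero_iff] at hz
      exact (OSG_line hU hf (hRU (h24 (hmem y hy z hz)))).differentiableAt.differentiableWithinAt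
    have h2 := Complex.two_pi_I_inv_smul_circleIntegral_sub_sq_inv_smul_of_differentiable
      (U := (fun z : ℂ => y + z • v) ⁻¹' U) (c := (0 : ℂ)) (w₀ := (0 : ℂ)) (R := ρ)
      (f := fun z : ℂ => f (y + z • v))
      (hU.preimage (by fun_prop))
      (fun z hz => by
        rw [mem_closedBall_zero_iff] at hz
        exact hRU (h24 (hmem y hy z hz)))
      (fun z hz => (OSG_line hU hf hz).differentiableAt.differentiableWithinAt)
      (mem_ball_self hρ0)
    rw [h2]
    have h3 := (OSG_line (ζ := 0) hU hf (by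
      rw [zero_smul, add_zero]
      exact hRU (ball_subset_ball (by linarith) hy) : y + (0 : ℂ) • v ∈ U)).deriv
    rw [h3, zero_smul, add_zero]
  have hcont := OSG_cont hU hf
  -- differentiation under the integral
  have hcm : Continuous (circleMap (0 : ℂ) ρ) := continuous_circleMap 0 ρ
  have hne : ∀ θ : ℝ, circleMap (0 : ℂ) ρ θ ≠ 0 := fun θ => circleMap_ne_center hρ0.ne'
  have hnorm : ∀ θ : ℝ, ‖circleMap (0 : ℂ) ρ θ‖ = ρ := by
    intro θ
    rw [norm_circleMap_zero, abs_of_pos hρ0]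
  set c : ℝ → ℂ := fun θ => deriv (circleMap (0 : ℂ) ρ) θ * ((circleMap (0 : ℂ) ρ θ - 0) ^ 2)⁻¹ with hc
  have hcc : Continuous c := by
    have h1 : Continuous fun θ : ℝ => deriv (circleMap (0 : ℂ) ρ) θ := by
      simp only [deriv_circleMap]
      exact hcm.mul continuous_const
    refine h1.mul (Continuous.inv₀ ((hcm.sub continuous_const).pow 2) fun θ => ?_)
    rw [sub_zero]
    exact pow_ne_zero 2 (hne θ)
  have key : HasFDerivAt (fun y => ∫ θ in (0 : ℝ)..2 * Real.pi, c θ • f (y + circleMap 0 ρ θ • v))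
      (∫ θ in (0 : ℝ)..2 * Real.pi, c θ • fderiv ℂ f (x + circleMap 0 ρ θ • v)) x := by
    have hfc : ∀ y ∈ ball x R, Continuous fun θ : ℝ => c θ • f (y + circleMap 0 ρ θ • v) := by
      intro y hy
      refine hcc.smul ?_
      refine hf.continuousOn.comp_continuous (by fun_prop) fun θ => ?_
      exact hRU (h24 (hmem y hy _ (hnorm θ).le))
    have hfc' : Continuous fun θ : ℝ => c θ • fderiv ℂ f (x + circleMap 0 ρ θ • v) := by
      refine hcc.smul ?_
      refine hcont.comp_continuous (by fun_prop) fun θ => ?_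
      exact hRU (h24 (hmem x (mem_ball_self hR) _ (hnorm θ).le))
    refine (intervalIntegral.hasFDerivAt_integral_of_dominated_of_fderiv_le
      (bound := fun θ => ‖c θ‖ * (2 * M / R)) (F := fun y θ => c θ • f (y + circleMap 0 ρ θ • v))
      (F' := fun y θ => c θ • fderiv ℂ f (y + circleMap 0 ρ θ • v)) (s := ball x R)
      (ball_mem_nhds x hR) ?_ ?_ ?_ ?_ ?_ ?_)
    · filter_upwards [ball_mem_nhds x hR] with y hy
      exact (hfc y hy).aestronglyMeasurable
    · exact (hfc x (mem_ball_self hR)).intervalIntegrable _ _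
    · exact hfc'.aestronglyMeasurable
    · refine Eventually.of_forall fun θ _ y hy => ?_
      rw [norm_smul]
      refine mul_le_mul_of_nonneg_left ?_ (norm_nonneg _)
      have hy2 := hmem y hy _ (hnorm θ).le
      have hsub : ball (y + circleMap 0 ρ θ • v) R ⊆ ball x (4 * R) := by
        intro z hz
        rw [mem_ball] at hy2 hz ⊢
        linarith [dist_triangle z (y + circleMap 0 ρ θ • v) x]
      exact OSG_bound hR (hf.mono (hsub.trans hRU)) fun z hz => hRM z (hsub hz)
    · exact (hcc.norm.mul continuous_const).intervalIntegrable _ _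
    · refine Eventually.of_forall fun θ _ y hy => ?_
      have hyU : y + circleMap 0 ρ θ • v ∈ U := hRU (h24 (hmem y hy _ (hnorm θ).le))
      have h1 : HasFDerivAt f (fderiv ℂ f (y + circleMap 0 ρ θ • v)) (y + circleMap 0 ρ θ • v) :=
        (hf.differentiableAt (hU.mem_nhds hyU)).hasFDerivAt
      have h2 : HasFDerivAt (fun y => f (y + circleMap 0 ρ θ • v))
          (fderiv ℂ f (y + circleMap 0 ρ θ • v)) y := by
        have := h1.comp y ((hasFDerivAt_id y).add_const (circleMap 0 ρ θ • v))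
        rw [ContinuousLinearMap.comp_id] at this
        exact this
      exact h2.const_smul (c θ)
  have hev : (fun y => fderiv ℂ f y v) =ᶠ[𝓝 x] fun y =>
      (2 * Real.pi * Complex.I : ℂ)⁻¹ • ∫ θ in (0 : ℝ)..2 * Real.pi, c θ • f (y + circleMap 0 ρ θ • v) := by
    filter_upwards [ball_mem_nhds x hR] with y hy
    rw [hcau y hy, circleIntegral]
    simp only [hc, smul_smul]
  exact (key.const_smul (2 * Real.pi * Complex.I : ℂ)⁻¹).differentiableAt.congr_of_eventuallyEq hev

/-- **Osgood**: complex differentiable functions of finitely many variables are smooth. -/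
theorem OSG_nat [CompleteSpace F] [FiniteDimensional ℂ E] {U : Set E} (hU : IsOpen U) (n : ℕ) :
    ∀ {f : E → F}, DifferentiableOn ℂ f U → ContDiffOn ℂ n f U := by
  induction n with
  | zero =>
    intro f hf
    exact contDiffOn_zero.2 hf.continuousOn
  | succ n ih =>
    intro f hf
    have h : ((n + 1 : ℕ) : WithTop ℕ∞) = (n : WithTop ℕ∞) + 1 := by push_cast; rfl
    rw [h, contDiffOn_succ_iff_fderiv_of_isOpen hU]
    refine ⟨hf, fun h0 => absurd h0 (by simp), ?_⟩
    rw [contDiffOn_clm_apply]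
    intro v
    exact ih (OSG_dir hU hf v)

theorem OSG_infty [CompleteSpace F] [FiniteDimensional ℂ E] {U : Set E} (hU : IsOpen U) {f : E → F}
    (hf : DifferentiableOn ℂ f U) : ContDiffOn ℂ ∞ f U :=
  contDiffOn_infty.2 fun n => OSG_nat hU n hf

theorem OSG [CompleteSpace F] [FiniteDimensional ℂ E] [NormedSpace ℝ E] [NormedSpace ℝ F]
    [IsScalarTower ℝ ℂ E] [IsScalarTower ℝ ℂ F] {U : Set E} (hU : IsOpen U) {f : E → F}
    (hf : DifferentiableOn ℂ f U) : ContDiffOn ℝ ∞ f U :=
  (OSG_infty hU hf).restrict_scalars ℝ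

end

end Pool.Agent.P2
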