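import Pool.Agent.helper37.P2.SpecA
import Pool.Agent.helper49.P2.OSG

/-!
# Project P2, row IBP
-/

set_option autoImplicit false

open scoped ContDiff Topology
open MeasureTheory Filter Set Metric MvPolynomial Pool.Agent.helper37.QA

namespace Pool.Agent.P2

theorem IBP_nsq {Ω : Set (ℂ × ℂ)} {P : ℂ × ℂ → ℂ} (hP : ContDiffOn ℝ ∞ P Ω) :
    ContDiffOn ℝ ∞ (fun p => Complex.normSq (P p)) Ω := by
  have h : (fun p => Complex.normSq (P p)) = fun p => (P p).re * (P p).re + (P p).im * (P p).im := by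
    funext p
    rw [Complex.normSq_apply]
  rw [h]
  have hre : ContDiffOn ℝ ∞ (fun p => (P p).re) Ω :=
    Complex.reCLM.contDiff.comp_contDiffOn hP
  have him : ContDiffOn ℝ ∞ (fun p => (P p).im) Ω :=
    Complex.imCLM.contDiff.comp_contDiffOn hP
  exact (hre.mul hre).add (him.mul him)

theorem IBP_uu {Ω : Set (ℂ × ℂ)} {P Q : ℂ × ℂ → ℂ} (hΩ : IsOpen Ω) (hP : DifferentiableOn ℂ P Ω)
    (hQ : DifferentiableOn ℂ Q Ω) (h0 : ∀ p ∈ Ω, P p ≠ 0 ∨ Q p ≠ 0) :
    ContDiffOn ℝ ∞ (uu P Q 1) Ω := by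
  have h1 := IBP_nsq (OSG hΩ hP)
  have h2 := IBP_nsq (OSG hΩ hQ)
  have h3 : ContDiffOn ℝ ∞ (fun p => Real.log (Complex.normSq (P p) + Complex.normSq (Q p))) Ω := by
    refine (h1.add h2).log fun p hp => ?_
    have hp1 := Complex.normSq_nonneg (P p)
    have hp2 := Complex.normSq_nonneg (Q p)
    rcases h0 p hp with h | h
    · have := Complex.normSq_pos.2 h
      exact ne_of_gt (by linarith)
    · have := Complex.normSq_pos.2 h
      exact ne_of_gt (by linarith)
  have h4 : uu P Q 1 = fun p => (1 / 2) * Real.log (Complex.normSq (P p) + Complex.normSq (Q p)) := by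
    funext p
    unfold uu
    rw [div_one]
  rw [h4]
  exact contDiffOn_const.mul h3

theorem IBP_lev {κ : ℂ × ℂ → ℝ} {p : ℂ × ℂ} (hp : κ =ᶠ[𝓝 p] 0) (a : ℂ × ℂ) : lev κ p a = 0 := by
  unfold lev lap
  have h1 : (fun t : ℂ => κ (p + t • a)) =ᶠ[𝓝 0] fun _ => 0 := by
    have h2 : Tendsto (fun t : ℂ => p + t • a) (𝓝 0) (𝓝 p) := by
      have h3 : Continuous fun t : ℂ => p + t • a := by fun_prop
      have h4 := h3.tendsto 0
      rwa [zero_smul, add_zero] at h4
    exact h2.eventually hp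
  have h5 : iteratedFDeriv ℝ 2 (fun t : ℂ => κ (p + t • a)) 0 = 0 := by
    rw [(h1.iteratedFDeriv ℝ 2).eq_of_nhds]
    simp
  rw [h5]
  simp

theorem IBP (hSTO : STO_stmt) (hMAU : MAU_stmt) : IBP_stmt := by
  intro Ω P Q κ A hΩ hP hQ h0 hκ hκc hκs hA
  have hG := IBP_uu hΩ hP hQ h0
  have key := hSTO Ω κ A (uu P Q 1) hΩ hκ hκc hκs hA hG
  have hL : ∀ p, κ p * MA A (uu P Q 1) p = (1 / 2) * (κ p * lev A p (ev P Q p) * om P Q p) := by
    intro p
    by_cases hp : p ∈ Ω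
    · rw [(hMAU Ω P Q A 1 hΩ hP hQ h0 hA one_pos p hp).1]
      ring
    · have : κ p = 0 := by
        by_contra h
        exact hp (hκs (subset_tsupport κ h))
      rw [this]
      ring
  have hR : ∀ p, A p * MA κ (uu P Q 1) p = (1 / 2) * (A p * lev κ p (ev P Q p) * om P Q p) := by
    intro p
    by_cases hp : p ∈ Ω
    · rw [(hMAU Ω P Q κ 1 hΩ hP hQ h0 hκ.contDiffOn one_pos p hp).1]
      ring
    · have hp' : κ =ᶠ[𝓝 p] 0 := notMem_tsupport_iff_eventuallyEq.1 fun h => hp (hκs h)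
      unfold MA lre lim
      simp only [IBP_lev hp']
      ring
  simp only [hL, hR] at key
  rw [integral_const_mul, integral_const_mul] at key
  linarith

end Pool.Agent.P2
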