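import Pool.Agent.helper83.P2.SpecS0

/-!
# Project p2, row SLF: normalised lifts of the iterates on a linear disc
-/

set_option autoImplicit false

namespace Pool.Agent.P2

open Metric Filter Topology MeasureTheory
open Pool.Agent.helper37.QA

noncomputable section

variable {k d : ℕ}

theorem SLF_eval {m : ℕ} (p : MvPolynomial (Fin m) ℂ) :
    Differentiable ℂ fun x : Fin m → ℂ => MvPolynomial.eval x p := by
  induction p using MvPolynomial.induction_on with
  | C a => simp only [MvPolynomial.eval_C]; exact differentiable_const a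
  | add p q hp hq => simp only [map_add]; exact hp.add hq
  | mul_X p i hp =>
    simp only [map_mul, MvPolynomial.eval_X]
    exact hp.mul (differentiable_apply i)

theorem SLF_pmap {m : ℕ} (G : Fin m → MvPolynomial (Fin m) ℂ) :
    Differentiable ℂ fun x : Fin m → ℂ => pmap G x := by
  rw [differentiable_pi]
  intro i
  exact SLF_eval (G i)

theorem SLF (hSGR : SGR_stmt) : SLF_stmt := by
  intro k d hd f U u C hT hG hH a b hab
  obtain ⟨hcont, hsm, hcone, hu⟩ := hSGR k d hd f U u C hT hG
  obtain ⟨g0, hg0, hg1⟩ := hH a b hab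
  have hab' : ∀ t ∈ ball (0 : ℂ) 1, a + t • b ∈ cone U := fun t ht => hab t (ball_subset_closedBall ht)
  set g : ℂ → ℂ := fun t => g0 t - (g0 0).im * Complex.I with hg
  have hgd : DifferentiableOn ℂ g (ball 0 1) := hg0.sub (differentiableOn_const _)
  have hgre : ∀ t ∈ ball (0 : ℂ) 1, (g t).re = u (a + t • b) := by
    intro t ht
    rw [hg1 t ht]
    simp [hg]
  have hga : g 0 = (u a : ℂ) := by
    have h0 := hg1 0 (mem_ball_self one_pos)
    rw [zero_smul, add_zero] at h0
    apply Complex.ext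
    · rw [hgre 0 (mem_ball_self one_pos), zero_smul, add_zero, Complex.ofReal_re]
    · simp [hg]
  refine ⟨fun n t => Complex.exp (-((d : ℂ) ^ n * g t)) • pmap (iter f.F n) (a + t • b), ?_, ?_, ?_⟩
  · intro n
    have hA : DifferentiableOn ℂ (fun t : ℂ => Complex.exp (-((d : ℂ) ^ n * g t))) (ball 0 1) :=
      ((hgd.const_mul ((d : ℂ) ^ n)).neg).cexp
    have h1 : Differentiable ℂ fun t : ℂ => a + t • b := by fun_prop
    have hB : DifferentiableOn ℂ (fun t : ℂ => pmap (iter f.F n) (a + t • b)) (ball 0 1) :=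
      ((SLF_pmap (iter f.F n)).comp h1).differentiableOn
    exact hA.smul hB
  · intro n
    simp only [zero_smul, add_zero]
    rw [hga]
    congr 1
    push_cast
    rfl
  · intro n t ht
    have hZ := hab' t ht
    have hFZ := hcone _ hZ n
    have hc0 : Complex.exp (-((d : ℂ) ^ n * g t)) ≠ 0 := Complex.exp_ne_zero _
    have hcn : ‖Complex.exp (-((d : ℂ) ^ n * g t))‖ = Real.exp (-((d : ℝ) ^ n * u (a + t • b))) := by
      rw [Complex.norm_exp]
      congr 1
      have h1 : ((d : ℂ) ^ n * g t).re = (d : ℝ) ^ n * (g t).re := by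
        have h2 : ((d : ℂ) ^ n) = (((d : ℝ) ^ n : ℝ) : ℂ) := by push_cast; rfl
        rw [h2, Complex.re_ofReal_mul]
      rw [Complex.neg_re, h1, hgre t ht]
    have hFn : 0 < ‖pmap (iter f.F n) (a + t • b)‖ := by
      obtain ⟨h, _⟩ := hFZ
      exact norm_pos_iff.2 h
    have hgr := abs_le.1 (hG n _ hZ)
    have hnorm : ‖Complex.exp (-((d : ℂ) ^ n * g t)) • pmap (iter f.F n) (a + t • b)‖ =
        Real.exp (-((d : ℝ) ^ n * u (a + t • b)) + Real.log ‖pmap (iter f.F n) (a + t • b)‖) := by
      rw [norm_smul, hcn, Real.exp_add, Real.exp_log hFn]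
    refine ⟨cone_smul hFZ hc0, ?_, ?_, ?_, _, hc0, rfl⟩
    · rw [hsm _ hFZ _ hc0, hu _ hZ n, hcn, Real.log_exp]
      ring
    · rw [hnorm]
      apply Real.exp_le_exp.2
      linarith [hgr.2]
    · rw [hnorm]
      apply Real.exp_le_exp.2
      linarith [hgr.1]

end

end Pool.Agent.P2
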